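import Pool.Agent.Helper13.Venn.Defs

/-! # VD-6: basic properties of the model functions -/

namespace Pool.Agent.Helper13.Venn

open Set Metric Topology Bornology

private theorem continuous_phi : Continuous fun q : ℝ × ℝ × ℝ => phi q.1 q.2.1 q.2.2 := by
  unfold phi; fun_prop

private theorem continuous_FU : Continuous fun q : ℝ × ℝ × ℝ => FU q.1 q.2.1 q.2.2 := by
  unfold FU phi; fun_prop

private theorem continuous_FL : Continuous fun q : ℝ × ℝ × ℝ => FL q.1 q.2.1 q.2.2 := by
  unfold FL phi; fun_prop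

private theorem continuous_hgt :
    Continuous fun q : ℝ × ℝ × ℝ × ℝ => hgt q.1 q.2.1 q.2.2.1 q.2.2.2 := by
  unfold hgt FU FL phi; fun_prop

theorem continuous_g (i : Fin 6) : Continuous (g i) := by
  unfold g
  split_ifs with h
  · fun_prop
  · unfold hgt FU FL phi
    fun_prop

private theorem phi_smul (x y z t : ℝ) (ht : 0 < t) : phi (t * x) (t * y) (t * z) = t * phi x y z := by
  unfold phi
  rw [show t * y - 2 * (t * x) = t * (y - 2 * x) by ring, abs_mul, abs_mul t z, abs_of_pos ht,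
    show t * |y - 2 * x| + t * |z| - t * x = t * (|y - 2 * x| + |z| - x) by ring, abs_mul,
    abs_of_pos ht]

private theorem FU_smul (x y z t : ℝ) (ht : 0 < t) : FU (t * x) (t * y) (t * z) = t * FU x y z := by
  unfold FU
  rw [phi_smul x y z t ht, mul_min_of_nonneg _ _ ht.le]
  congr 1
  · rw [show 2 * (t * x) - t * y = t * (2 * x - y) by ring, mul_add,
      mul_max_of_nonneg _ _ ht.le, mul_zero]
  · rw [show t * y - t * x = t * (y - x) by ring, abs_mul, abs_mul t z, abs_mul t x,
      abs_of_pos ht]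
    ring

private theorem FL_smul (x y z t : ℝ) (ht : 0 < t) : FL (t * x) (t * y) (t * z) = t * FL x y z := by
  unfold FL
  rw [phi_smul x y z t ht, mul_min_of_nonneg _ _ ht.le]
  congr 1
  · rw [show t * y - 2 * (t * x) = t * (y - 2 * x) by ring, mul_add,
      mul_max_of_nonneg _ _ ht.le, mul_zero]
  · rw [show t * y - 3 * (t * x) = t * (y - 3 * x) by ring, abs_mul, abs_mul t z, abs_mul t x,
      abs_of_pos ht]
    ring

private theorem hgt_smul (x y z v t : ℝ) (ht : 0 < t) :
    hgt (t * x) (t * y) (t * z) (t * v) = t * hgt x y z v := by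
  unfold hgt
  rw [FU_smul x y z t ht, FL_smul x y z t ht, mul_min_of_nonneg _ _ ht.le]
  congr 1 <;> ring

theorem g_smul (i : Fin 6) (t : ℝ) (ht : 0 < t) (p : E 5) : g i (t • p) = t * g i p := by
  unfold g
  split_ifs with h
  · simp
  · simp only [PiLp.smul_apply, smul_eq_mul]
    rw [hgt_smul _ _ _ _ t ht]
    ring

theorem g_pInf (i : Fin 6) : g i pInf < 0 := by
  have h0 : pInf 0 = -3/10 := rfl
  have h1 : pInf 1 = -3/10 := rfl
  have h2 : pInf 2 = -3/10 := rfl
  have h3 : pInf 3 = -3/10 := rfl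
  have h4 : pInf 4 = -4/5 := rfl
  fin_cases i
  · show pInf 0 < 0
    rw [h0]; norm_num
  · show pInf 1 < 0
    rw [h1]; norm_num
  · show pInf 2 < 0
    rw [h2]; norm_num
  · show pInf 3 < 0
    rw [h3]; norm_num
  · show pInf 4 < 0
    rw [h4]; norm_num
  · show pInf 4 - hgt (pInf 0) (pInf 1) (pInf 2) (pInf 3) < 0
    rw [h0, h1, h2, h3, h4]
    have hU : 0 ≤ FU (-3/10) (-3/10) (-3/10) := by
      unfold FU phi
      refine le_min (by positivity) ?_
      have := le_abs_self (-3/10 : ℝ)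
      have h5 := abs_nonneg (-3/10 - -3/10 : ℝ)
      have h6 := abs_nonneg (-3/10 : ℝ)
      linarith
    have hL : 9/10 ≤ FL (-3/10) (-3/10) (-3/10) := by
      unfold FL phi
      refine le_min ?_ ?_
      · rw [show (-3/10 - 2 * (-3/10) : ℝ) = 3/10 by norm_num,
          abs_of_pos (show (0:ℝ) < 3/10 by norm_num), abs_of_neg (show (-3/10 : ℝ) < 0 by norm_num),
          abs_of_pos (show (0:ℝ) < 3/10 + -(-3/10) - -3/10 by norm_num)]
        have := le_max_left (0:ℝ) (3/10)
        linarith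
      · rw [show (-3/10 - 3 * (-3/10) : ℝ) = 6/10 by norm_num,
          abs_of_pos (show (0:ℝ) < 6/10 by norm_num), abs_of_neg (show (-3/10 : ℝ) < 0 by norm_num)]
        norm_num
    have hh : 0 ≤ hgt (-3/10) (-3/10) (-3/10) (-3/10) := by
      unfold hgt
      refine le_min (by linarith) (by linarith)
    linarith

theorem norm_pInf : ‖pInf‖ = 1 := by
  rw [EuclideanSpace.norm_eq, Fin.sum_univ_five]
  have h0 : pInf 0 = -3/10 := rfl
  have h1 : pInf 1 = -3/10 := rfl
  have h2 : pInf 2 = -3/10 := rfl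
  have h3 : pInf 3 = -3/10 := rfl
  have h4 : pInf 4 = -4/5 := rfl
  rw [h0, h1, h2, h3, h4]
  simp only [Real.norm_eq_abs, sq_abs]
  norm_num

/-- The open hemisphere `f < 0` projected to the hypersurface `f = -1`. -/
private theorem neg_slice (f : E 5 → ℝ) (hf : Continuous f)
    (hom : ∀ (t : ℝ) (p : E 5), 0 < t → f (t • p) = t * f p) :
    Nonempty ({p : E 5 | ‖p‖ = 1 ∧ f p < 0} ≃ₜ {p : E 5 | f p = -1}) := by
  have h0 : f 0 = 0 := by
    have := hom 2 0 (by norm_num)
    rw [smul_zero] at this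
    linarith
  have hne : ∀ q : E 5, f q = -1 → 0 < ‖q‖ := by
    intro q hq
    rw [norm_pos_iff]
    rintro rfl
    rw [h0] at hq
    norm_num at hq
  refine ⟨{
    toFun := fun p => ⟨(-f p.1)⁻¹ • p.1, ?_⟩
    invFun := fun q => ⟨‖q.1‖⁻¹ • q.1, ?_, ?_⟩
    left_inv := ?_
    right_inv := ?_
    continuous_toFun := ?_
    continuous_invFun := ?_ }⟩
  · have hp : 0 < -f p.1 := neg_pos.mpr p.2.2
    show f _ = -1
    rw [hom _ _ (inv_pos.mpr hp)]
    have h1 : f p.1 ≠ 0 := (ne_of_lt p.2.2)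
    field_simp
  · have hq := hne q.1 q.2
    rw [norm_smul, norm_inv, norm_norm, inv_mul_cancel₀ hq.ne']
  · have hq := hne q.1 q.2
    rw [hom _ _ (inv_pos.mpr hq), show f q.1 = -1 from q.2]
    have := inv_pos.mpr hq
    linarith
  · intro p
    apply Subtype.ext
    have hp : 0 < -f p.1 := neg_pos.mpr p.2.2
    show ‖(-f p.1)⁻¹ • p.1‖⁻¹ • (-f p.1)⁻¹ • p.1 = p.1
    rw [norm_smul, p.2.1, mul_one, norm_inv, Real.norm_eq_abs, abs_of_pos hp, inv_inv, smul_smul,
      mul_inv_cancel₀ hp.ne', one_smul]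
  · intro q
    apply Subtype.ext
    have hq := hne q.1 q.2
    show (-f (‖q.1‖⁻¹ • q.1))⁻¹ • ‖q.1‖⁻¹ • q.1 = q.1
    rw [hom _ _ (inv_pos.mpr hq), show f q.1 = -1 from q.2, smul_smul]
    have : (-(‖q.1‖⁻¹ * -1))⁻¹ * ‖q.1‖⁻¹ = 1 := by
      rw [mul_neg, mul_one, neg_neg, inv_inv, mul_inv_cancel₀ hq.ne']
    rw [this, one_smul]
  · apply Continuous.subtype_mk
    have h1 : Continuous fun p : {p : E 5 | ‖p‖ = 1 ∧ f p < 0} => (-f p.1)⁻¹ :=
      Continuous.inv₀ (hf.comp continuous_subtype_val).neg fun p => (neg_pos.mpr p.2.2).ne'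
    exact h1.smul continuous_subtype_val
  · apply Continuous.subtype_mk
    have h1 : Continuous fun q : {p : E 5 | f p = -1} => ‖q.1‖⁻¹ :=
      Continuous.inv₀ continuous_subtype_val.norm fun q => (hne q.1 q.2).ne'
    exact h1.smul continuous_subtype_val

/-- insertion of a coordinate -/
private noncomputable def ins (j : Fin 5) (a : ℝ) (r : E 4) : E 5 :=
  WithLp.toLp 2 (j.insertNth a (fun k => r k) : Fin 5 → ℝ)

/-- omission of a coordinate -/
private noncomputable def omi (j : Fin 5) (p : E 5) : E 4 :=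
  WithLp.toLp 2 (fun k => p (j.succAbove k))

private theorem omi_ins (j : Fin 5) (a : ℝ) (r : E 4) : omi j (ins j a r) = r := by
  ext k
  simp [omi, ins]

private theorem ins_omi (j : Fin 5) (p : E 5) : ins j (p j) (omi j p) = p := by
  ext k
  rcases Fin.eq_self_or_eq_succAbove j k with rfl | ⟨l, rfl⟩
  · simp [omi, ins]
  · simp [omi, ins]

private theorem ins_same (j : Fin 5) (a : ℝ) (r : E 4) : ins j a r j = a := by
  simp [ins]

private theorem continuous_omi (j : Fin 5) : Continuous (omi j) := by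
  unfold omi
  fun_prop

private theorem continuous_ins (j : Fin 5) {X : Type*} [TopologicalSpace X] (a : X → ℝ) (ha : Continuous a)
    (r : X → E 4) (hr : Continuous r) : Continuous fun x => ins j (a x) (r x) := by
  unfold ins
  refine (PiLp.continuous_toLp 2 _).comp ?_
  refine continuous_pi fun k => ?_
  rcases Fin.eq_self_or_eq_succAbove j k with rfl | ⟨l, rfl⟩
  · simpa using ha
  · simp only [Fin.insertNth_apply_succAbove]
    fun_prop

/-- graphs are Euclidean -/
private theorem graph_homeo (j : Fin 5) (f : E 5 → ℝ) (c : E 4 → ℝ) (hc : Continuous c)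
    (hfc : ∀ p, f p = p j - c (omi j p)) : Nonempty ({p : E 5 | f p = -1} ≃ₜ E 4) := by
  refine ⟨{
    toFun := fun p => omi j p.1
    invFun := fun r => ⟨ins j (c r - 1) r, ?_⟩
    left_inv := ?_
    right_inv := ?_
    continuous_toFun := ?_
    continuous_invFun := ?_ }⟩
  · show f _ = -1
    rw [hfc, omi_ins, ins_same]
    ring
  · intro p
    apply Subtype.ext
    show ins j (c (omi j p.1) - 1) (omi j p.1) = p.1
    have h1 : f p.1 = -1 := p.2
    rw [hfc] at h1
    rw [show c (omi j p.1) - 1 = p.1 j by linarith]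
    exact ins_omi j p.1
  · intro r
    exact omi_ins j _ r
  · exact (continuous_omi j).comp continuous_subtype_val
  · apply Continuous.subtype_mk
    exact continuous_ins j _ (hc.sub continuous_const) _ continuous_id

private theorem g_graph (i : Fin 6) : ∃ (j : Fin 5) (c : E 4 → ℝ), Continuous c ∧
    ∀ p, g i p = p j - c (omi j p) := by
  by_cases h : i.val < 5
  · refine ⟨⟨i.val, h⟩, fun _ => 0, continuous_const, fun p => ?_⟩
    unfold g
    rw [dif_pos h, sub_zero]
  · refine ⟨4, fun r => hgt (r 0) (r 1) (r 2) (r 3), ?_, fun p => ?_⟩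
    · unfold hgt FU FL phi
      fun_prop
    · unfold g
      rw [dif_neg h]
      rfl

theorem neg_homeo (i : Fin 6) : Nonempty ({p : E 5 | ‖p‖ = 1 ∧ g i p < 0} ≃ₜ E 4) := by
  obtain ⟨e⟩ := neg_slice (g i) (continuous_g i) (fun t p ht => g_smul i t ht p)
  obtain ⟨j, c, hc, hg⟩ := g_graph i
  obtain ⟨e'⟩ := graph_homeo j (g i) c hc hg
  exact ⟨e.trans e'⟩

theorem neg_connected (i : Fin 6) :
    IsPreconnected {p : E 5 | ‖p‖ = 1 ∧ g i p < 0 ∧ p ≠ pInf} := by
  obtain ⟨e⟩ := neg_homeo i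
  have hrank : 1 < Module.rank ℝ (E 4) := by
    rw [← Module.finrank_eq_rank, finrank_euclideanSpace_fin]
    norm_num
  have h1 : IsPreconnected ({e ⟨pInf, norm_pInf, g_pInf i⟩}ᶜ : Set (E 4)) :=
    (isConnected_compl_singleton_of_one_lt_rank hrank _).isPreconnected
  have h2 := h1.image (fun r => ((e.symm r : {p : E 5 | ‖p‖ = 1 ∧ g i p < 0}) : E 5))
    (continuous_subtype_val.comp e.symm.continuous).continuousOn
  convert h2 using 1
  ext p
  constructor
  · rintro ⟨h3, h4, h5⟩
    refine ⟨e ⟨p, h3, h4⟩, ?_, ?_⟩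
    · intro h6
      have h7 := e.injective (mem_singleton_iff.mp h6)
      exact h5 (congrArg Subtype.val h7)
    · simp
  · rintro ⟨r, hr, rfl⟩
    refine ⟨(e.symm r).2.1, (e.symm r).2.2, ?_⟩
    intro h6
    apply hr
    rw [mem_singleton_iff]
    have h7 : e.symm r = ⟨pInf, norm_pInf, g_pInf i⟩ := Subtype.ext h6
    rw [← h7, e.apply_symm_apply]

end Pool.Agent.Helper13.Venn
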