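import Pool.Agent.Helper13.Venn.Defs

/-! # VD-5: interior and exterior of the surfaces -/

namespace Pool.Agent.Helper13.Venn

open Set Metric Topology Bornology

theorem inner_outer (ι : E 4 → E 5) (hι : IsEmbedding ι)
    (hr : range ι = {p : E 5 | ‖p‖ = 1 ∧ p ≠ pInf}) (f : E 5 → ℝ) (hf : Continuous f)
    (hneg : f pInf < 0)
    (hconn : IsPreconnected {p : E 5 | ‖p‖ = 1 ∧ f p < 0 ∧ p ≠ pInf}) :
    inner {y : E 4 | f (ι y) = 0} = {y | 0 < f (ι y)} ∧
      outer {y : E 4 | f (ι y) = 0} = {y | f (ι y) < 0} := by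
  set S : Set (E 4) := {y : E 4 | f (ι y) = 0} with hS
  set P : Set (E 4) := {y | 0 < f (ι y)} with hP
  set M : Set (E 4) := {y | f (ι y) < 0} with hM
  have hc : Continuous fun y => f (ι y) := hf.comp hι.continuous
  have hPo : IsOpen P := isOpen_lt continuous_const hc
  have hMo : IsOpen M := isOpen_lt hc continuous_const
  have hPM : Disjoint P M := by
    rw [Set.disjoint_left]
    intro y hy hy'
    exact absurd (lt_trans (show f (ι y) < 0 from hy') (show 0 < f (ι y) from hy)) (lt_irrefl _)
  have hcompl : Sᶜ ⊆ P ∪ M := by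
    intro y hy
    rcases lt_trichotomy (f (ι y)) 0 with h | h | h
    · exact Or.inr h
    · exact absurd h hy
    · exact Or.inl h
  -- the closed part is compact
  have hcomp : IsCompact {y : E 4 | 0 ≤ f (ι y)} := by
    have hA : IsCompact {p : E 5 | ‖p‖ = 1 ∧ 0 ≤ f p} := by
      have h1 : IsCompact (sphere (0 : E 5) 1) := isCompact_sphere _ _
      have h2 : IsClosed {p : E 5 | 0 ≤ f p} := isClosed_le continuous_const hf
      have h3 := h1.inter_right h2
      convert h3 using 1
      ext p
      simp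
    have hAr : {p : E 5 | ‖p‖ = 1 ∧ 0 ≤ f p} ⊆ range ι := by
      rw [hr]
      rintro p ⟨h1, h2⟩
      refine ⟨h1, ?_⟩
      rintro rfl
      exact absurd hneg (not_lt.mpr h2)
    have h4 := (hι.isInducing.isCompact_preimage_iff hAr).mpr hA
    convert h4 using 1
    ext y
    have h5 : ι y ∈ range ι := mem_range_self y
    rw [hr] at h5
    simp [h5.1]
  have hMunb : ¬ IsBounded M := by
    intro hb
    have h1 : IsBounded (M ∪ {y : E 4 | 0 ≤ f (ι y)}) := hb.union hcomp.isBounded
    have h2 : M ∪ {y : E 4 | 0 ≤ f (ι y)} = univ := by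
      ext y
      simp only [mem_union, mem_univ, iff_true]
      exact lt_or_ge (f (ι y)) 0
    rw [h2] at h1
    exact NormedSpace.unbounded_univ ℝ (E 4) h1
  have hMc : IsPreconnected M := by
    rw [← hι.isInducing.isPreconnected_image]
    convert hconn using 1
    ext p
    constructor
    · rintro ⟨y, hy, rfl⟩
      have h5 : ι y ∈ range ι := mem_range_self y
      rw [hr] at h5
      exact ⟨h5.1, hy, h5.2⟩
    · rintro ⟨h1, h2, h3⟩
      have h5 : p ∈ range ι := by
        rw [hr]
        exact ⟨h1, h3⟩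
      obtain ⟨y, rfl⟩ := h5
      exact ⟨y, h2, rfl⟩
  have hPS : P ⊆ Sᶜ := by
    intro y hy hy'
    exact absurd (show 0 < f (ι y) from hy) (by rw [show f (ι y) = 0 from hy']; exact lt_irrefl _)
  have hMS : M ⊆ Sᶜ := by
    intro y hy hy'
    exact absurd (show f (ι y) < 0 from hy) (by rw [show f (ι y) = 0 from hy']; exact lt_irrefl _)
  have hPb : ∀ y ∈ P, IsBounded (connectedComponentIn Sᶜ y) := by
    intro y hy
    have h1 : connectedComponentIn Sᶜ y ⊆ P :=
      isPreconnected_connectedComponentIn.subset_left_of_subset_union hPo hMo hPM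
        ((connectedComponentIn_subset _ _).trans hcompl)
        ⟨y, mem_connectedComponentIn (hPS hy), hy⟩
    refine hcomp.isBounded.subset (h1.trans ?_)
    intro z hz
    exact le_of_lt (show 0 < f (ι z) from hz)
  have hMu : ∀ y ∈ M, ¬ IsBounded (connectedComponentIn Sᶜ y) := by
    intro y hy hb
    exact hMunb (hb.subset (hMc.subset_connectedComponentIn hy hMS))
  constructor
  · ext y
    constructor
    · rintro ⟨h1, h2⟩
      rcases hcompl h1 with h3 | h3
      · exact h3
      · exact absurd h2 (hMu y h3)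
    · intro h1
      exact ⟨hPS h1, hPb y h1⟩
  · ext y
    constructor
    · rintro ⟨h1, h2⟩
      rcases hcompl h1 with h3 | h3
      · exact absurd (hPb y h3) h2
      · exact h3
    · intro h1
      exact ⟨hMS h1, hMu y h1⟩

end Pool.Agent.Helper13.Venn
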